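import Pool.Agent.helper9.TH.Spec

/-!
# Row GL2: residually nilpotent quotients of unbounded order give large `q`-quotients
-/

set_option autoImplicit false

namespace Pool.Agent.helper18.TH

open Pool.Agent.helper9.TH

universe u

/-- a finite nilpotent group maps onto each of its Sylow subgroups -/
theorem sylow_quotient {G : Type u} [Group G] [Finite G] (hG : Group.IsNilpotent G)
    (q : ℕ) (hq : q.Prime) :
    ∃ U : Subgroup G, U.Normal ∧ U.index = q ^ (Nat.card G).factorization q := by
  classical
  have := Fact.mk hq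
  by_cases hd : q ∣ Nat.card G
  · have htfae := (Group.isNilpotent_of_finite_tfae (G := G)).out 0 4
    obtain ⟨e⟩ := htfae.1 hG
    obtain ⟨P⟩ : Nonempty (Sylow q G) := inferInstance
    have hmem : q ∈ (Nat.card G).primeFactors :=
      Nat.mem_primeFactors.2 ⟨hq, hd, Nat.card_pos.ne'⟩
    let f1 : (∀ p : (Nat.card G).primeFactors, ∀ P : Sylow p G, P) →* (∀ P : Sylow q G, P) :=
      Pi.evalMonoidHom (fun p : (Nat.card G).primeFactors => ∀ P : Sylow p G, P) ⟨q, hmem⟩
    let f2 : (∀ P : Sylow q G, P) →* P := Pi.evalMonoidHom (fun P : Sylow q G => P) P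
    have hf1 : Function.Surjective f1 := Function.surjective_eval _
    have hf2 : Function.Surjective f2 := Function.surjective_eval _
    let f : G →* P := (f2.comp f1).comp e.symm.toMonoidHom
    have hf : Function.Surjective f := (hf2.comp hf1).comp e.symm.surjective
    refine ⟨f.ker, inferInstance, ?_⟩
    rw [Subgroup.index_ker, MonoidHom.range_eq_top.2 hf, Subgroup.card_top,
      Sylow.card_eq_multiplicity]
  · refine ⟨⊤, inferInstance, ?_⟩
    rw [Subgroup.index_top, Nat.factorization_eq_zero_of_not_dvd hd, pow_zero]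

/-- the same for a finite nilpotent quotient -/
theorem sylow_quotient' {H : Type u} [Group H] (N : Subgroup H) [N.Normal] [N.FiniteIndex]
    (hN : Group.IsNilpotent (H ⧸ N)) (q : ℕ) (hq : q.Prime) :
    ∃ U : Subgroup H, U.Normal ∧ U.index = q ^ N.index.factorization q := by
  obtain ⟨U, hU, hi⟩ := sylow_quotient hN q hq
  refine ⟨U.comap (QuotientGroup.mk' N), hU.comap _, ?_⟩
  rw [Subgroup.index_comap_of_surjective U (QuotientGroup.mk'_surjective N), hi]
  rfl

/-- an infinite finitely generated abelian group maps onto `ℤ` (copied from `helper9.TG.D`) -/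
theorem exists_onto_int (A : Type*) [AddCommGroup A] [AddGroup.FG A] [Infinite A] :
    ∃ f : A →+ ℤ, Function.Surjective f := by
  have hfin : Module.Finite ℤ A := Module.Finite.iff_addGroup_fg.2 inferInstance
  have hfree : Module.Free ℤ (A ⧸ Submodule.torsion ℤ A) := inferInstance
  have hnt : Nontrivial (A ⧸ Submodule.torsion ℤ A) := by
    rw [Submodule.Quotient.nontrivial_iff]
    intro htop
    have h1 : IsAddTorsion A := by
      rw [isAddTorsion_iff_isTorsion_int]
      intro x
      have hx : x ∈ Submodule.torsion ℤ A := htop ▸ Submodule.mem_top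
      exact hx
    exact (AddCommGroup.finite_of_fg_isAddTorsion A h1).not_infinite inferInstance
  set B := Module.Free.chooseBasis ℤ (A ⧸ Submodule.torsion ℤ A)
  obtain ⟨i⟩ : Nonempty (Module.Free.ChooseBasisIndex ℤ (A ⧸ Submodule.torsion ℤ A)) :=
    B.index_nonempty
  refine ⟨((B.coord i).toAddMonoidHom).comp (Submodule.torsion ℤ A).mkQ.toAddMonoidHom, ?_⟩
  intro n
  obtain ⟨x, hx⟩ := (Submodule.torsion ℤ A).mkQ_surjective (n • B i)
  refine ⟨x, ?_⟩
  show B.coord i ((Submodule.torsion ℤ A).mkQ x) = n
  rw [hx, map_smul]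
  simp

theorem of_surj {H : Type u} [Group H] :
    Function.Surjective (Abelianization.of : H →* Abelianization H) :=
  fun x => Quotient.inductionOn' x fun y => ⟨y, rfl⟩

/-- if the abelianization is infinite then there are quotients of order `2 ^ m` -/
theorem of_infinite_ab {H : Type u} [Group H] [Group.FG H] [Infinite (Abelianization H)] (m : ℕ) :
    ∃ U : Subgroup H, U.Normal ∧ U.index = 2 ^ m := by
  have hfg : Group.FG (Abelianization H) :=
    Group.fg_of_surjective (f := Abelianization.of) of_surj
  obtain ⟨f, hf⟩ := exists_onto_int (Additive (Abelianization H))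
  let φ : H →* Multiplicative (ZMod (2 ^ m)) :=
    MonoidHom.mk' (fun x => Multiplicative.ofAdd
      ((f (Additive.ofMul (Abelianization.of x)) : ℤ) : ZMod (2 ^ m))) (by
        intro x y
        rw [map_mul, ofMul_mul, map_add, Int.cast_add, ofAdd_add])
  have hφ : Function.Surjective φ := by
    intro y
    obtain ⟨z, hz⟩ := ZMod.intCast_surjective (Multiplicative.toAdd y)
    obtain ⟨a, ha⟩ := hf z
    obtain ⟨x, hx⟩ := of_surj (Additive.toMul a)
    refine ⟨x, ?_⟩
    have hx' : Additive.ofMul (Abelianization.of x) = a := by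
      rw [hx]; rfl
    show Multiplicative.ofAdd
      ((f (Additive.ofMul (Abelianization.of x)) : ℤ) : ZMod (2 ^ m)) = y
    rw [hx', ha, hz]
    rfl
  refine ⟨φ.ker, inferInstance, ?_⟩
  rw [Subgroup.index_ker, MonoidHom.range_eq_top.2 hφ, Subgroup.card_top]
  show Nat.card (ZMod (2 ^ m)) = 2 ^ m
  exact Nat.card_zmod _

/-- a nilpotent finite quotient has order supported on the primes of the abelianization -/
theorem prime_dvd {H : Type u} [Group H] [Finite (Abelianization H)] (N : Subgroup H) [N.Normal]
    [N.FiniteIndex] (hN : Group.IsNilpotent (H ⧸ N)) (q : ℕ) (hq : q.Prime) (hd : q ∣ N.index) :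
    q ∣ Nat.card (Abelianization H) := by
  have := Fact.mk hq
  obtain ⟨U, hU, hi⟩ := sylow_quotient' N hN q hq
  have hne : N.index.factorization q ≠ 0 := by
    have := (hq.factorization_pos_of_dvd Subgroup.FiniteIndex.index_ne_zero hd)
    omega
  have hUf : U.FiniteIndex := ⟨by rw [hi]; exact pow_ne_zero _ hq.ne_zero⟩
  -- the quotient `H ⧸ U` is a nontrivial `q`-group
  have hcard : Nat.card (H ⧸ U) = q ^ N.index.factorization q := hi
  have hp : IsPGroup q (H ⧸ U) := IsPGroup.of_card hcard
  have hfin : Finite (H ⧸ U) := inferInstance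
  have hnil : Group.IsNilpotent (H ⧸ U) := hp.isNilpotent
  have hnt : Nontrivial (H ⧸ U) := by
    rw [← Finite.one_lt_card_iff_nontrivial, hcard]
    exact Nat.one_lt_pow hne hq.one_lt
  have hsol : Group.IsSolvable (H ⧸ U) := inferInstance
  have hlt : commutator (H ⧸ U) < ⊤ := Group.IsSolvable.commutator_lt_top_of_nontrivial (H ⧸ U)
  -- the index of the commutator subgroup is a nontrivial power of `q`
  have h1 : (commutator (H ⧸ U)).index ∣ q ^ N.index.factorization q := by
    rw [← hcard]; exact Subgroup.index_dvd_card _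
  obtain ⟨k, hk, hk2⟩ := (Nat.dvd_prime_pow hq).1 h1
  have hk0 : k ≠ 0 := by
    rintro rfl
    rw [pow_zero] at hk2
    exact hlt.ne (Subgroup.index_eq_one.1 hk2)
  have h2 : q ∣ Nat.card (Abelianization (H ⧸ U)) := by
    have : Nat.card (Abelianization (H ⧸ U)) = (commutator (H ⧸ U)).index := rfl
    rw [this, hk2]
    exact dvd_pow_self q hk0
  -- the abelianization of `H` maps onto that of `H ⧸ U`
  have h3 : Function.Surjective (Abelianization.map (QuotientGroup.mk' U)) := by
    intro y
    obtain ⟨z, rfl⟩ := of_surj y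
    obtain ⟨x, rfl⟩ := QuotientGroup.mk'_surjective U z
    exact ⟨Abelianization.of x, rfl⟩
  exact h2.trans (Subgroup.card_dvd_of_surjective _ h3)

theorem GL2 : GL2_stmt.{u} := by
  intro H _ _ hfam
  by_cases hinf : Infinite (Abelianization H)
  · exact ⟨2, Nat.prime_two, fun m => ⟨m, le_rfl, of_infinite_ab m⟩⟩
  · have hfin : Finite (Abelianization H) := not_infinite_iff_finite.1 hinf
    set n := Nat.card (Abelianization H) with hn
    have hn0 : n ≠ 0 := Nat.card_pos.ne'
    by_contra hcon
    push Not at hcon
    -- for every prime `q` there is a bound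
    have hb : ∀ q : ℕ, ∃ m : ℕ, q.Prime → ∀ e : ℕ, m ≤ e → ∀ U : Subgroup H, U.Normal →
        U.index ≠ q ^ e := by
      intro q
      by_cases hq : q.Prime
      · obtain ⟨m, hm⟩ := hcon q hq
        exact ⟨m, fun _ => hm⟩
      · exact ⟨0, fun h => absurd h hq⟩
    choose b hb using hb
    -- the bound on the index
    let M := ∏ q ∈ n.primeFactors, q ^ b q
    obtain ⟨N, hNn, hNf, hNM, hNnil⟩ := hfam (M + 1)
    have := hNn
    have := hNf
    have hle : N.index ≤ M := by
      have hne : N.index ≠ 0 := Subgroup.FiniteIndex.index_ne_zero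
      have hdvd : N.index ∣ M := by
        have hM0 : M ≠ 0 := Finset.prod_ne_zero_iff.2 fun q hq =>
          pow_ne_zero _ (Nat.prime_of_mem_primeFactors hq).ne_zero
        rw [← Nat.factorization_prime_le_iff_dvd hne hM0]
        intro q hq
        by_cases hd : q ∣ N.index
        · have hqn : q ∈ n.primeFactors :=
            Nat.mem_primeFactors.2 ⟨hq, prime_dvd N hNnil q hq hd, hn0⟩
          have h1 : N.index.factorization q ≤ b q := by
            by_contra hlt
            push Not at hlt
            obtain ⟨U, hU, hi⟩ := sylow_quotient' N hNnil q hq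
            exact hb q hq _ hlt.le U hU hi
          have h2 : q ^ b q ∣ M := Finset.dvd_prod_of_mem (fun q => q ^ b q) hqn
          exact h1.trans ((hq.pow_dvd_iff_le_factorization hM0).1 h2)
        · rw [Nat.factorization_eq_zero_of_not_dvd hd]
          exact Nat.zero_le _
      exact Nat.le_of_dvd (Nat.pos_of_ne_zero (Finset.prod_ne_zero_iff.2 fun q hq =>
          pow_ne_zero _ (Nat.prime_of_mem_primeFactors hq).ne_zero)) hdvd
    omega

end Pool.Agent.helper18.TH
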